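import Mathlib
import Pool.Agent.H6.Dist

set_option autoImplicit false

namespace Pool.Agent.Results.MP_93535d_co.Exists

open Finset

/-- dominating broadcast -/
def DomB {V : Type} (G : SimpleGraph V) (f : V → ℕ) : Prop :=
  (∀ v, (f v : ℕ∞) ≤ G.eccent v) ∧ ∀ u, ∃ v, 1 ≤ f v ∧ G.dist u v ≤ f v

/-- multipacking -/
def Multipacking {V : Type} (G : SimpleGraph V) (M : Finset V) : Prop :=
  ∀ v, ∀ k : ℕ, 1 ≤ k → (M.filter fun u => G.dist u v ≤ k).card ≤ k

/-- the objective values of the feasible points of the fractional broadcast linear program -/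
def lpValues {V : Type} [Fintype V] (G : SimpleGraph V) : Set ℝ :=
  {c | ∃ x : V → ℕ → ℝ, (∀ v k, 0 ≤ x v k) ∧
    (∀ u, 1 ≤ ∑ v, ∑ k ∈ Icc 1 (G.eccent v).toNat, if G.dist u v ≤ k then x v k else 0) ∧
    c = ∑ v, ∑ k ∈ Icc 1 (G.eccent v).toNat, (k : ℝ) * x v k}

/-- the circulant graph on `28` vertices with jumps `1` and `4` -/
def G : SimpleGraph (Fin 28) := SimpleGraph.fromRel fun a b => a - b = 1 ∨ a - b = 4

instance : DecidableRel G.Adj := fun u v => by unfold G; infer_instance

def d (a b : Fin 28) : ℕ := [0, 1, 2, 2, 1, 2, 3, 3, 2, 3, 4, 4, 3, 4, 5, 4, 3, 4, 4, 3, 2, 3, 3, 2,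
  1, 2, 2, 1].getD (a - b).val 0

lemma rd (u w : Fin 28) : G.Reachable u w ∧ G.dist u w = d u w :=
  Pool.Agent.H6.Dist.reach_dist G d (by decide +kernel) (by
    intro u v w h; revert w; revert u v; decide +kernel) (by decide +kernel) u w

lemma ecc (v : Fin 28) : G.eccent v = 5 := by
  have e : ∀ u, G.edist v u = (d v u : ℕ) := fun u => by rw [← (rd v u).1.coe_dist_eq_edist, (rd v u).2]
  refine le_antisymm ((G.eccent_le_iff _ _).2 fun u => ?_) ?_
  · rw [e]; exact_mod_cast (by decide +kernel : ∀ v u, d v u ≤ 5) v u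
  · refine le_trans ?_ (SimpleGraph.edist_le_eccent (v := v + 14))
    rw [e, (by decide +kernel : ∀ v, d v (v + 14) = 5) v]; rfl

lemma b7 : ∀ v : Fin 28, ∀ k ∈ Icc 1 5, (univ.filter fun u => d u v ≤ k).card ≤ 7 * k := by
  decide +kernel
lemma b3 : ∀ u : Fin 28, (univ.filter fun v => d u v ≤ 3).card = 21 := by decide +kernel
lemma b8 : ∀ v : Fin 28, ∀ k < 5, (univ.filter fun u => 1 ≤ k ∧ d u v ≤ k).card +
    (if 1 ≤ k then 3 else 0) ≤ 8 * k := by decide +kernel
lemma two : ∀ a b : Fin 28, a ≠ b → d a b ≤ 2 → ∃ v, d a v ≤ 1 ∧ d b v ≤ 1 := by decide +kernel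
lemma four : ∀ a b : Fin 28, a < b → 2 < d a b → ∀ c, b < c → 2 < d a c → 2 < d b c →
    ∀ e, c < e → 2 < d a e → 2 < d b e → 2 < d c e → ∃ v, ∃ k ∈ Icc 1 3,
      k < (({a, b, c, e} : Finset (Fin 28)).filter fun u => d u v ≤ k).card := by decide +kernel

theorem result : ∃ (n : ℕ) (G : SimpleGraph (Fin n)) (t : ℕ), G.Connected ∧
    IsLeast (lpValues G) t ∧ (∀ M, Multipacking G M → M.card < t) ∧
    ∀ f, DomB G f → t < ∑ v, f v := by
  have ds : ∀ u w, G.dist u w = d u w := fun u w => (rd u w).2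
  have e5 : ∀ v, (G.eccent v).toNat = 5 := fun v => by rw [ecc]; rfl
  refine ⟨28, G, 4, ⟨fun u w => (rd u w).1⟩, ⟨⟨fun _ k => if k = 3 then 1 / 21 else 0, ?_, ?_, ?_⟩, ?_⟩,
    fun M hM => ?_, fun f hf => ?_⟩
  · intro v k; dsimp only; split_ifs <;> norm_num
  · intro u
    simp only [ds, e5]
    have : ∀ v, (∑ k ∈ Icc 1 5, if d u v ≤ k then (if k = 3 then (1 / 21 : ℝ) else 0) else 0) =
        if d u v ≤ 3 then 1 / 21 else 0 := fun v => by
      rw [sum_eq_single 3 (fun k _ h => by simp [h]) (by simp)]; simp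
    simp only [this]
    rw [← sum_filter, sum_const, b3]
    norm_num
  · simp only [e5]
    rw [sum_const, sum_eq_single 3 (fun k _ h => by simp [h]) (by simp)]
    norm_num
  · rintro c ⟨x, h0, h1, rfl⟩
    simp only [ds, e5] at h1 ⊢
    have a := sum_le_sum fun u (_ : u ∈ univ) => h1 u
    rw [sum_comm] at a
    have b : ∀ v, (∑ u, ∑ k ∈ Icc 1 5, if d u v ≤ k then x v k else 0) ≤
        7 * ∑ k ∈ Icc (1 : ℕ) 5, (k : ℝ) * x v k := fun v => by
      rw [sum_comm, mul_sum]
      refine sum_le_sum fun k hk => ?_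
      rw [← sum_filter, sum_const, nsmul_eq_mul, ← mul_assoc]
      exact mul_le_mul_of_nonneg_right (by exact_mod_cast b7 v k hk) (h0 v k)
    have c := a.trans (sum_le_sum fun v _ => b v)
    rw [← mul_sum] at c
    simp only [sum_const, card_univ, Fintype.card_fin, nsmul_eq_mul] at c
    push_cast at c ⊢
    linarith
  · simp only [Multipacking, ds] at hM
    by_contra hc
    obtain ⟨S, hS, hcard⟩ := exists_subset_card_eq (n := 4) (s := M) (by omega)
    let f := S.orderEmbOfFin hcard
    have m : ∀ i, f i ∈ M := fun i => hS (S.orderEmbOfFin_mem hcard i)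
    have p : ∀ i j, i < j → 2 < d (f i) (f j) := fun i j h => by
      by_contra c
      have ne : f i ≠ f j := (f.strictMono h).ne
      obtain ⟨v, h1, h2⟩ := two _ _ ne (by omega)
      have := (card_le_card (s := {f i, f j}) fun y hy => ?_).trans (hM v 1 le_rfl)
      · rw [card_pair ne] at this; omega
      · simp only [mem_insert, mem_singleton] at hy
        rcases hy with rfl | rfl <;> simp [m, h1, h2]
    obtain ⟨v, k, hk, hr⟩ := four (f 0) (f 1) (f.strictMono (by decide)) (p _ _ (by decide)) (f 2)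
      (f.strictMono (by decide)) (p _ _ (by decide)) (p _ _ (by decide)) (f 3)
      (f.strictMono (by decide)) (p _ _ (by decide)) (p _ _ (by decide)) (p _ _ (by decide))
    have hsub : ({f 0, f 1, f 2, f 3} : Finset (Fin 28)) ⊆ M := by
      intro x hx
      simp only [mem_insert, mem_singleton] at hx
      rcases hx with rfl | rfl | rfl | rfl <;> exact m _
    have h5 := hM v k (mem_Icc.1 hk).1
    have h6 := card_le_card (filter_subset_filter (fun u => d u v ≤ k) hsub)
    omega
  · obtain ⟨-, hf⟩ := hf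
    simp only [ds] at hf
    by_contra hc
    have l : ∀ v, f v < 5 := fun v =>
      lt_of_le_of_lt (single_le_sum (fun _ _ => Nat.zero_le _) (mem_univ v)) (by omega)
    have a : (univ : Finset (Fin 28)) ⊆ univ.biUnion fun v => univ.filter fun u => 1 ≤ f v ∧ d u v ≤ f v :=
      fun u _ => by simpa using hf u
    have b := (card_le_card a).trans card_biUnion_le
    have c := sum_le_sum fun v (_ : v ∈ univ) => b8 v (f v) (l v)
    rw [sum_add_distrib, ← mul_sum, ← sum_filter, sum_const, smul_eq_mul] at c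
    simp only [card_univ, Fintype.card_fin] at b
    obtain ⟨v, hv, -⟩ := hf 0
    obtain ⟨w, hw, hw'⟩ := hf (v - 14)
    have : v = w := card_le_one.1 (show (univ.filter fun v => 1 ≤ f v).card ≤ 1 by omega) v
      (by simpa using hv) w (by simpa using hw)
    subst this
    have := l v
    rw [(by decide +kernel : ∀ v, d (v - 14) v = 5) v] at hw'
    omega

end Pool.Agent.Results.MP_93535d_co.Exists
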